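import Pool.Agent.H58.FL.TargetsB

/-!
MP_6a7a6f_gt, board flc_modules, row GCD: the binomial coefficients up to the largest prime power
dividing `n` are coprime.
-/

set_option autoImplicit false

namespace Pool.Agent.H51.FL

open Pool.Agent.H58.FL

theorem luc (p : ℕ) [Fact p.Prime] (v q : ℕ) : (p ^ v * q).choose (p ^ v) ≡ q [MOD p] := by
  induction v with
  | zero => simp [Nat.ModEq.refl]
  | succ v ih =>
    have hp : 0 < p := (Fact.out : p.Prime).pos
    have h := Choose.choose_modEq_choose_mod_mul_choose_div_nat (p := p)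
      (n := p ^ (v + 1) * q) (k := p ^ (v + 1))
    have h1 : p ^ (v + 1) * q = p * (p ^ v * q) := by ring
    have h2 : p ^ (v + 1) = p * p ^ v := by ring
    rw [h1, h2] at h
    rw [Nat.mul_mod_right, Nat.mul_mod_right, Nat.mul_div_cancel_left _ hp,
      Nat.mul_div_cancel_left _ hp, Nat.choose_self, one_mul] at h
    rw [h1, h2]
    exact h.trans ih

theorem pf_GCD : T_GCD := by
  intro n k hn hk hpk I hI
  obtain ⟨d, hd⟩ := Int.subgroup_cyclic I
  have hmem : ∀ x : ℤ, x ∈ I ↔ d ∣ x := by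
    intro x
    rw [hd, AddSubgroup.mem_closure_singleton]
    constructor
    · rintro ⟨c, hc⟩
      exact ⟨c, by rw [← hc, smul_eq_mul, mul_comm]⟩
    · rintro ⟨c, hc⟩
      exact ⟨c, by rw [hc, smul_eq_mul, mul_comm]⟩
  by_contra h1
  have h2 : d.natAbs ≠ 1 := by
    intro h3
    apply h1
    rw [hmem]
    exact (Int.isUnit_iff_natAbs_eq.mpr h3).dvd
  obtain ⟨p, hp, hpd⟩ := Nat.exists_prime_and_dvd h2
  have : Fact p.Prime := ⟨hp⟩
  have h4 : ∀ i : ℕ, 1 ≤ i → i ≤ k → i ≤ n → p ∣ n.choose i := by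
    intro i hi1 hi2 hi3
    have h5 := (hmem _).mp (hI i hi1 hi2 hi3)
    have h6 : (p : ℤ) ∣ ((n.choose i : ℕ) : ℤ) := (Int.natCast_dvd.mpr hpd).trans h5
    exact_mod_cast h6
  have h5 : p ∣ n := by
    have := h4 1 le_rfl hk hn
    rwa [Nat.choose_one_right] at this
  have hn0 : n ≠ 0 := by omega
  set v := n.factorization p with hv
  have h6 : p ^ v ≤ k := hpk p hp h5
  have h7 : p ^ v ≤ n := Nat.ordProj_le p hn0
  have h8 : 1 ≤ p ^ v := Nat.one_le_pow _ _ hp.pos
  have h9 := h4 (p ^ v) h8 h6 h7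
  have h10 : p ^ v * (n / p ^ v) = n := Nat.ordProj_mul_ordCompl_eq_self n p
  have h11 : ¬ p ∣ n / p ^ v := Nat.not_dvd_ordCompl hp hn0
  have h12 := luc p v (n / p ^ v)
  rw [h10] at h12
  exact h11 ((h12.dvd_iff dvd_rfl).mp h9)

end Pool.Agent.H51.FL
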