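import Pool.Agent.H58.FL.TargetsB

/-!
MP_6a7a6f_gt, board flc_modules, row RMO: monotonicity of `rad`.
-/

set_option autoImplicit false

namespace Pool.Agent.H51.FL

open Pool.Agent.H58.FL Pool.Agent.H48.FR

theorem pf_RMO : T_RMO := by
  intro i k hi hik
  have hi' : (1 : ℝ) ≤ i := by exact_mod_cast hi
  have hik' : (i : ℝ) ≤ k := by exact_mod_cast hik
  have hpi := Real.pi_pos
  have h1 : Real.pi / (2 * k + 1) ≤ Real.pi / (2 * i + 1) :=
    div_le_div_of_nonneg_left hpi.le (by linarith) (by linarith)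
  have h2 : Real.pi / (2 * i + 1) ≤ Real.pi / 3 :=
    div_le_div_of_nonneg_left hpi.le (by norm_num) (by linarith)
  have h0 : 0 ≤ Real.pi / (2 * (k : ℝ) + 1) := by positivity
  have h3 : Real.cos (Real.pi / (2 * i + 1)) ≤ Real.cos (Real.pi / (2 * k + 1)) :=
    Real.cos_le_cos_of_nonneg_of_le_pi h0 (by linarith) h1
  have h4 : 0 < Real.cos (Real.pi / (2 * i + 1)) :=
    Real.cos_pos_of_mem_Ioo ⟨by linarith, by linarith⟩
  set a := Real.cos (Real.pi / (2 * i + 1)) with ha
  set b := Real.cos (Real.pi / (2 * k + 1)) with hb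
  have h5 : a / (1 + a) ≤ b / (1 + b) := by
    rw [div_le_div_iff₀ (by linarith) (by linarith)]
    nlinarith
  unfold rad
  rw [← ha, ← hb]
  have h6 := Real.arccos_le_arccos (neg_le_neg h5)
  linarith

end Pool.Agent.H51.FL
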