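import Pool.Agent.H58.FL.TargetsB

/-!
MP_6a7a6f_gt, board flc_modules, row FN2: the upper bound.
-/

set_option autoImplicit false

namespace Pool.Agent.H51.FL

open Pool.Agent.H58.FL Pool.Agent.H48.FR

theorem pf_FN2 (hBIN : T_BIN) (hRMO : T_RMO) (hGCD : T_GCD) : T_FN2 := by
  intro n k hn hk hpk ε hε hrad
  let I : AddSubgroup ℤ :=
    { carrier := {N | KillsN N (2 * n) (kc (CPn n) ε hε)}
      zero_mem' := by
        show (0 : ℤ) • _ = _
        exact zero_smul ℤ _
      add_mem' := by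
        intro a b ha hb
        have ha' : a • (HZ (2 * n)).map (TopCat.ofHom (kc (CPn n) ε hε)) = 0 := ha
        have hb' : b • (HZ (2 * n)).map (TopCat.ofHom (kc (CPn n) ε hε)) = 0 := hb
        show (a + b) • _ = _
        rw [add_smul, ha', hb', add_zero]
      neg_mem' := by
        intro a ha
        have ha' : a • (HZ (2 * n)).map (TopCat.ofHom (kc (CPn n) ε hε)) = 0 := ha
        show (-a) • _ = _
        rw [neg_smul, ha', neg_zero] }
  have h1 : (1 : ℤ) ∈ I := by
    refine hGCD n k hn hk hpk I ?_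
    intro i hi1 hik hin
    obtain ⟨l, rfl⟩ := Nat.exists_eq_add_of_le hin
    exact hBIN i l ε hε hi1 (lt_of_le_of_lt (hRMO i k hi1 hik) hrad)
  have h2 : (1 : ℤ) • (HZ (2 * n)).map (TopCat.ofHom (kc (CPn n) ε hε)) = 0 := h1
  rw [one_smul] at h2
  exact h2

end Pool.Agent.H51.FL
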